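import Pool.Agent.AT6.Stmts1

/-!
# Squad AT6, row PWN: powers of an element of the group ring with residue zero
-/

open scoped BigOperators

set_option linter.unusedSectionVars false

noncomputable section

namespace Pool.Agent.PP.T6.H83

open Pool.Agent.Helper51_AWC Pool.Agent.Helper79_WRA Pool.Agent.PP Pool.Agent.PP.KF
open Pool.Agent.PP.K9 Pool.Agent.PP.K9.H97 Pool.Agent.PP.H75 Pool.Agent.PP.T3 Pool.Agent.PP.T2

attribute [local instance] Ideal.Quotient.field

variable {M : Ideal (integralClosure ℤ ℂ)} [hM : M.IsMaximal]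

variable (M) in
/-- the inclusion of the algebraic integers -/
def incl : integralClosure ℤ ℂ →+* RM M where
  toFun z := ⟨z, RM_of_int z.2⟩
  map_one' := rfl
  map_zero' := rfl
  map_mul' _ _ := rfl
  map_add' _ _ := rfl

theorem incl_coe (z : integralClosure ℤ ℂ) : ((incl M z : RM M) : ℂ) = z := rfl

/-- elements outside `M` are units of the local ring -/
theorem incl_unit {s : integralClosure ℤ ℂ} (hs : s ∉ M) : IsUnit (incl M s) := by
  have h1 : rr M (s : ℂ) ≠ 0 := by
    rw [rr_eq (s := 1) (t := s) one_notMem (by simp), map_one, inv_one, mul_one]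
    exact mk_ne hs
  obtain ⟨h2, h3⟩ := inv_RM (RM_of_int s.2) h1
  refine IsUnit.of_mul_eq_one ⟨((s : ℂ))⁻¹, h2⟩ ?_
  apply Subtype.ext
  exact mul_inv_cancel₀ h3

/-- the prime ideals of the local ring which contain `ℓ` contain the elements with residue zero -/
theorem mem_prime {ℓ : ℕ} (hℓ : ℓ.Prime) (P : Ideal (RM M)) [hP : P.IsPrime]
    (hl : ((ℓ : ℕ) : RM M) ∈ P) (β : RM M) (hβ : rr M (β : ℂ) = 0) : β ∈ P := by
  have h1 : (P.comap (incl M)).IsPrime := Ideal.comap_isPrime _ _
  have hl' : ((ℓ : ℕ) : integralClosure ℤ ℂ) ∈ P.comap (incl M) := by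
    rw [Ideal.mem_comap, map_natCast]
    exact hl
  -- `P ∩ ℤ` is maximal
  have h2 : ((P.comap (incl M)).comap (algebraMap ℤ (integralClosure ℤ ℂ))).IsMaximal := by
    have h3 : ((P.comap (incl M)).comap (algebraMap ℤ (integralClosure ℤ ℂ))).IsPrime :=
      Ideal.comap_isPrime _ _
    refine h3.isMaximal ?_
    intro h4
    have h5 : (ℓ : ℤ) ∈ (P.comap (incl M)).comap (algebraMap ℤ (integralClosure ℤ ℂ)) := by
      rw [Ideal.mem_comap, map_natCast]
      exact hl'
    rw [h4, Ideal.mem_bot] at h5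
    exact hℓ.ne_zero (by exact_mod_cast h5)
  have h3 : (P.comap (incl M)).IsMaximal :=
    Ideal.isMaximal_of_isIntegral_of_isMaximal_comap (R := ℤ) _ h2
  have h4 : P.comap (incl M) ≤ M := by
    intro s hs
    by_contra hsM
    exact hP.ne_top (Ideal.eq_top_of_isUnit_mem _ hs (incl_unit hsM))
  have h5 : P.comap (incl M) = M := h3.eq_of_le hM.ne_top h4
  obtain ⟨s, t, hs, hst⟩ := β.2
  have ht : t ∈ M := by
    by_contra ht
    rw [rr_eq hs hst] at hβ
    rcases mul_eq_zero.1 hβ with h6 | h6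
    · exact mk_ne ht h6
    · exact mk_ne hs (inv_eq_zero.1 h6)
  have h6 : incl M s * β = incl M t := Subtype.ext hst
  have h7 : incl M s * β ∈ P := by
    rw [h6]
    have : t ∈ P.comap (incl M) := by rw [h5]; exact ht
    exact this
  rcases hP.mem_or_mem h7 with h8 | h8
  · exfalso
    apply hs
    rw [← h5]
    exact h8
  · exact h8

section pow

variable {G : Type} [Group G] [Fintype G]

open Classical in
/-- the powers, with values in the local ring -/
def vn (B : G → RM M) : ℕ → G → RM M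
  | 0 => fun x => if x = 1 then 1 else 0
  | n + 1 => fun x => ∑ t, B t * vn B n (t⁻¹ * x)

theorem vn_coe (B : G → RM M) (n : ℕ) (x : G) :
    ((vn B n x : RM M) : ℂ) = T8.pw (fun t => ((B t : RM M) : ℂ)) n x := by
  induction n generalizing x with
  | zero =>
    rw [vn, T8.pw]
    by_cases h : x = 1
    · simp only [if_pos h]
      rfl
    · simp only [if_neg h]
      rfl
  | succ n ih =>
    rw [vn, T8.pw, mulF, finsum_eq_sum_of_fintype]
    rw [AddSubmonoidClass.coe_finsetSum]
    refine Finset.sum_congr rfl fun t _ => ?_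
    rw [← ih]
    rfl

theorem vn_mem (B : G → RM M) (n : ℕ) (x : G) :
    vn B n x ∈ (Ideal.span (Set.range B)) ^ n := by
  induction n generalizing x with
  | zero =>
    rw [pow_zero, Ideal.one_eq_top]
    trivial
  | succ n ih =>
    rw [vn, pow_succ']
    refine Ideal.sum_mem _ fun t _ => ?_
    exact Ideal.mul_mem_mul (Ideal.subset_span ⟨t, rfl⟩) (ih _)

end pow

theorem pwn : PwnStmt := by
  intro ℓ hℓ M _ hlM G _ _ b hb hb0 c
  have := Fintype.ofFinite G
  set B : G → RM M := fun x => ⟨b x, hb x⟩ with hB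
  have hI : Ideal.span (Set.range B) ≤ (Ideal.span {(((ℓ : ℕ) : RM M)) ^ c}).radical := by
    rw [Ideal.span_le]
    rintro _ ⟨x, rfl⟩
    rw [SetLike.mem_coe, Ideal.radical_eq_sInf, Submodule.mem_sInf]
    rintro P ⟨hP1, hP2⟩
    have h1 : (((ℓ : ℕ) : RM M)) ^ c ∈ P := hP1 (Ideal.subset_span rfl)
    exact mem_prime hℓ.out P (hP2.mem_of_pow_mem c h1) (B x) (hb0 x)
  have hfg : (Ideal.span (Set.range B)).FG := ⟨(Set.finite_range B).toFinset, by simp⟩
  obtain ⟨n, hn⟩ := Ideal.exists_pow_le_of_le_radical_of_fg hI hfg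
  refine ⟨n, fun x => ?_⟩
  have h1 := hn (vn_mem B n x)
  rw [Ideal.mem_span_singleton'] at h1
  obtain ⟨a, ha⟩ := h1
  refine ⟨a, a.2, ?_⟩
  have h3 : T8.pw b n x = ((a * (((ℓ : ℕ) : RM M)) ^ c : RM M) : ℂ) := by
    rw [ha, vn_coe]
  rw [h3]
  push_cast
  ring

end Pool.Agent.PP.T6.H83
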